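import Pool.Agent.R967.DB.Coup

/-!
# The disagreement bounds are closed under pointwise minimum

A function `f : [0,1] → [0,1]` is a disagreement bound if every finite collection of real random
variables has a coupling in which every two members satisfy `P (X ≠ Y) ≤ f (d_TV (X, Y))`.

The result: `f` is a disagreement bound if and only if `2x/(1+x) ≤ f x ≤ 1` for every `x ∈ [0,1]`; in
particular the pointwise minimum of two disagreement bounds is a disagreement bound.

Proof (`Pool.Agent.R967.DB`). That `2x/(1+x)` is a disagreement bound is known; the coupling is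
rejection sampling from one sequence of trials. The lower bound is new: for `x ∈ (0,1]` and a large
`M` let `k = ⌊M/x⌋`, and let the law `μ_S`, for `S ⊆ {0,…,v-1}` with `k` elements, give mass `x/M` to
the elements of `S` and the rest to `-1`. Two sets with exactly `i = k - M` common elements are at
distance exactly `x`. A coupling is, up to small probabilities, a random choice function `c(S) ∈ S`, and
for every choice function the proportion of the pairs `(S, S')` with `i` common elements and
`c(S) = c(S')` is at most `i/(2k-i) + o(1)` as `v → ∞` and then `M → ∞`, by a rearrangement inequality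
for the conditional probabilities `P(c(S) = p | I ⊆ S)`.
-/

set_option autoImplicit false

namespace Pool.Agent.Results.MP_4c6e08_pr.ClosedUnderMinimum

open MeasureTheory

/-- The total variation distance of two laws on the real line: the supremum over the measurable sets
`A` of `|μ A - ν A|`. -/
noncomputable def tvDist (μ ν : Measure ℝ) : ℝ :=
  sSup {r : ℝ | ∃ A : Set ℝ, MeasurableSet A ∧ r = |μ.real A - ν.real A|}

/-- `f` maps `[0,1]` to `[0,1]`, and every finite collection of real random variables (with laws
`μ i`) has a coupling (random variables `X i` with laws `μ i` on one probability space) in which every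
two members satisfy `P (X i ≠ X j) ≤ f (tvDist (μ i) (μ j))`. -/
def IsDisagreementBound (f : ℝ → ℝ) : Prop :=
  (∀ x : ℝ, 0 ≤ x → x ≤ 1 → 0 ≤ f x ∧ f x ≤ 1) ∧
  ∀ (n : ℕ) (μ : Fin n → Measure ℝ), (∀ i, IsProbabilityMeasure (μ i)) →
    ∃ (Ω : Type) (_ : MeasurableSpace Ω) (P : Measure Ω) (X : Fin n → Ω → ℝ),
      IsProbabilityMeasure P ∧ (∀ i, Measurable (X i) ∧ P.map (X i) = μ i) ∧
      ∀ i j, i ≠ j → P.real {ω | X i ω ≠ X j ω} ≤ f (tvDist (μ i) (μ j))

/-- The minimum of two disagreement bounds is a disagreement bound; and the disagreement bounds are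
exactly the functions with values between `2x/(1+x)` and `1`. -/
theorem result :
    (∀ f₁ f₂ : ℝ → ℝ, IsDisagreementBound f₁ → IsDisagreementBound f₂ →
      IsDisagreementBound (fun x => min (f₁ x) (f₂ x))) ∧
    (∀ f : ℝ → ℝ, IsDisagreementBound f ↔
      ∀ x : ℝ, 0 ≤ x → x ≤ 1 → 2 * x / (1 + x) ≤ f x ∧ f x ≤ 1) :=
  ⟨fun _ _ h₁ h₂ => Pool.Agent.R967.DB.db_min h₁ h₂, fun f => Pool.Agent.R967.DB.db_iff f⟩

end Pool.Agent.Results.MP_4c6e08_pr.ClosedUnderMinimum
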